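import Mathlib

set_option autoImplicit false

/-!
# Frankl's inequality and the maximal join-irreducible elements of a finite lattice

Let `z` be an element and `A` a finite set of elements of a finite lattice `L`, none of them below
`z`, such that every join-irreducible element is below `z` or below a member of `A`.  Then
`x ↦ x ⊓ z` is injective on the `x` above all of `A`, with values above no member of `A`.  So if, for
some weights on `A`, every `x` which is not above all of `A` is above at most half of the weight, the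
members of `A` lie on average below at most half of the elements of `L`.

This is applied to the set `M` of maximal join-irreducible elements: if a coatom `m` misses one or
two members of `M`, take `z = m` and for `A` these members; otherwise take `z = ⊥` and `A = M`.
If `M` has at most six members, every coatom misses at most two or at least half of them.
-/

namespace Pool.Agent.H60.Fr.SixMaximal

open Finset

open scoped Classical

/-- If `z` is not below `w`, some join-irreducible below `z` is not below `w`. -/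
lemma exists_min {L : Type*} [Lattice L] [Finite L] {z w : L} (h : ¬ z ≤ w) :
    ∃ c : L, SupIrred c ∧ c ≤ z ∧ ¬ c ≤ w := by
  obtain ⟨c, hc⟩ := (Set.toFinite {c : L | c ≤ z ∧ ¬ c ≤ w}).exists_minimal ⟨z, le_rfl, h⟩
  refine ⟨c, ⟨?_, ?_⟩, hc.prop.1, hc.prop.2⟩
  · intro hmin
    exact hc.prop.2 ((hmin inf_le_left).trans inf_le_right)
  · intro b d hbd
    by_contra hne
    push Not at hne
    have hb : b < c := lt_of_le_of_ne (hbd ▸ le_sup_left) hne.1
    have hd : d < c := lt_of_le_of_ne (hbd ▸ le_sup_right) hne.2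
    have key : ∀ e : L, e < c → e ≤ w := by
      intro e he
      by_contra hew
      exact absurd (hc.le_of_le ⟨he.le.trans hc.prop.1, hew⟩ he.le) (not_le_of_gt he)
    exact hc.prop.2 (hbd ▸ sup_le (key b hb) (key d hd))

/-- The number of elements with a given property, as a sum. -/
lemma sum_ind {L : Type*} [Fintype L] (p : L → Prop) [DecidablePred p] (c : ℤ) :
    ∑ x : L, (if p x then c else 0) = #{x : L | p x} * c := by
  rw [Finset.sum_ite, Finset.sum_const_zero, add_zero, Finset.sum_const, nsmul_eq_mul]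

/-- The averaging criterion. -/
lemma criterion {L : Type*} [Lattice L] [Fintype L] (z : L) (A : Finset L) (w : L → ℕ)
    (hz : ∀ a ∈ A, ¬ a ≤ z) (hcov : ∀ c : L, SupIrred c → c ≤ z ∨ ∃ a ∈ A, c ≤ a)
    (hw : 0 < ∑ a ∈ A, w a)
    (hhalf : ∀ x : L, (∃ a ∈ A, ¬ a ≤ x) → 2 * ∑ a ∈ A with a ≤ x, w a ≤ ∑ a ∈ A, w a) :
    ∃ a ∈ A, 2 * #{x : L | a ≤ x} ≤ Fintype.card L := by
  by_contra hcon
  push Not at hcon
  set W := ∑ a ∈ A, w a with hW
  have hAne : A.Nonempty := by
    rw [Finset.nonempty_iff_ne_empty]
    rintro rfl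
    simp at hW
    omega
  -- the injection
  have hinj : #{x : L | ∀ a ∈ A, a ≤ x} ≤ #{x : L | ∀ a ∈ A, ¬ a ≤ x} := by
    apply Finset.card_le_card_of_injOn (fun x => x ⊓ z)
    · intro x _
      simp only [coe_filter, mem_univ, true_and, Set.mem_ofPred_eq]
      exact fun a ha h => hz a ha (h.trans inf_le_right)
    · intro x hx y hy hxy
      simp only [coe_filter, mem_univ, true_and, Set.mem_ofPred_eq] at hx hy
      simp only at hxy
      have key : ∀ s t : L, (∀ a ∈ A, a ≤ t) → s ⊓ z = t ⊓ z → s ≤ t := by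
        intro s t ht hst
        by_contra hn
        obtain ⟨c, hc, hcs, hct⟩ := exists_min hn
        rcases hcov c hc with h | ⟨a, ha, hca⟩
        · exact hct ((le_inf hcs h).trans (hst.le.trans inf_le_left))
        · exact hct (hca.trans (ht a ha))
      exact le_antisymm (key x y hy hxy) (key y x hx hxy.symm)
  -- double counting
  have hsum : ∑ x : L, ∑ a ∈ A with a ≤ x, w a = ∑ a ∈ A, w a * #{x : L | a ≤ x} := by
    have h1 : ∀ x : L, ∑ a ∈ A with a ≤ x, w a = ∑ a ∈ A, if a ≤ x then w a else 0 :=
      fun x => Finset.sum_filter _ _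
    rw [Finset.sum_congr rfl fun x _ => h1 x, Finset.sum_comm]
    apply Finset.sum_congr rfl
    intro a _
    rw [← Finset.sum_filter, Finset.sum_const, smul_eq_mul, mul_comm]
  have hlow : W * (Fintype.card L + 1) ≤ 2 * ∑ x : L, ∑ a ∈ A with a ≤ x, w a := by
    rw [hsum, hW, Finset.sum_mul, Finset.mul_sum]
    apply Finset.sum_le_sum
    intro a ha
    have h := hcon a ha
    calc w a * (Fintype.card L + 1) ≤ w a * (2 * #{x : L | a ≤ x}) := Nat.mul_le_mul_left _ h
      _ = 2 * (w a * #{x : L | a ≤ x}) := by ring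
  have hup : ∀ x : L, 2 * ((∑ a ∈ A with a ≤ x, w a : ℕ) : ℤ) - W ≤
      (if ∀ a ∈ A, a ≤ x then (W : ℤ) else 0) + (if ∀ a ∈ A, ¬ a ≤ x then -(W : ℤ) else 0) := by
    intro x
    by_cases h1 : ∀ a ∈ A, a ≤ x
    · have h2 : ¬ ∀ a ∈ A, ¬ a ≤ x := by
        obtain ⟨a, ha⟩ := hAne
        exact fun h => h a ha (h1 a ha)
      rw [if_pos h1, if_neg h2]
      have : (∑ a ∈ A with a ≤ x, w a) ≤ W := Finset.sum_le_sum_of_subset (Finset.filter_subset _ _)
      omega
    · rw [if_neg h1]
      by_cases h2 : ∀ a ∈ A, ¬ a ≤ x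
      · rw [if_pos h2, Finset.filter_false_of_mem h2, Finset.sum_empty]
        simp
      · rw [if_neg h2]
        push Not at h1
        have := hhalf x h1
        omega
  have hS := Finset.sum_le_sum (s := (univ : Finset L)) (fun x _ => hup x)
  rw [Finset.sum_sub_distrib, ← Finset.mul_sum, Finset.sum_add_distrib, sum_ind, sum_ind,
    Finset.sum_const, nsmul_eq_mul, Finset.card_univ] at hS
  have e1 : (#{x : L | ∀ a ∈ A, a ≤ x} : ℤ) ≤ #{x : L | ∀ a ∈ A, ¬ a ≤ x} := by
    exact_mod_cast hinj
  have e2 : (W : ℤ) * (Fintype.card L + 1) ≤ 2 * ∑ x : L, ((∑ a ∈ A with a ≤ x, w a : ℕ) : ℤ) := by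
    exact_mod_cast hlow
  have e3 : (0 : ℤ) < W := by exact_mod_cast hw
  nlinarith

/-- The criterion for the set `M` of all maximal join-irreducible elements. -/
lemma coatoms {L : Type*} [Lattice L] [Fintype L] (M : Finset L) (w : L → ℕ)
    (hM : ∀ j, j ∈ M ↔ Maximal SupIrred j) (hw : 0 < ∑ j ∈ M, w j)
    (hc : ∀ m : L, Maximal (fun x => ¬ IsMax x) m →
      #{j ∈ M | ¬ j ≤ m} ≤ 2 ∨ 2 * ∑ j ∈ M with j ≤ m, w j ≤ ∑ j ∈ M, w j) :
    ∃ j ∈ M, 2 * #{x : L | j ≤ x} ≤ Fintype.card L := by
  have hcov : ∀ c : L, SupIrred c → ∃ j ∈ M, c ≤ j := by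
    intro c hc
    obtain ⟨m, hcm, hm⟩ := (Set.toFinite {c : L | SupIrred c}).exists_le_maximal hc
    exact ⟨m, (hM m).2 hm, hcm⟩
  by_cases h2 : ∃ m : L, ¬ IsMax m ∧ #{j ∈ M | ¬ j ≤ m} ≤ 2
  · obtain ⟨m, hm, hm2⟩ := h2
    set A : Finset L := {j ∈ M | ¬ j ≤ m} with hA
    have hAne : A.Nonempty := by
      rw [not_isMax_iff] at hm
      obtain ⟨b, hb⟩ := hm
      obtain ⟨c, hc, -, hcm⟩ := exists_min (not_le_of_gt hb)
      obtain ⟨j, hj, hcj⟩ := hcov c hc
      exact ⟨j, by rw [hA, mem_filter]; exact ⟨hj, fun h => hcm (hcj.trans h)⟩⟩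
    have h := criterion m A (fun _ => 1) (fun a ha => (mem_filter.1 ha).2)
      (fun c hc => by
        obtain ⟨j, hj, hcj⟩ := hcov c hc
        by_cases hjm : j ≤ m
        · exact Or.inl (hcj.trans hjm)
        · exact Or.inr ⟨j, mem_filter.2 ⟨hj, hjm⟩, hcj⟩)
      (by simpa using hAne) (fun x hx => by
        obtain ⟨a, ha, hax⟩ := hx
        simp only [sum_const, smul_eq_mul, mul_one]
        have hlt : #{a ∈ A | a ≤ x} < #A := by
          apply Finset.card_lt_card
          rw [Finset.filter_ssubset]
          exact ⟨a, ha, hax⟩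
        omega)
    obtain ⟨a, ha, hle⟩ := h
    exact ⟨a, (mem_filter.1 ha).1, hle⟩
  · push Not at h2
    have hne : Nonempty L := by
      by_contra hne
      rw [not_nonempty_iff] at hne
      have : M = ∅ := Finset.eq_empty_of_isEmpty M
      rw [this] at hw
      simp at hw
    let _ : BoundedOrder L := Fintype.toBoundedOrder L
    refine criterion ⊥ M w ?_ (fun c hc => Or.inr (hcov c hc)) hw ?_
    · intro a ha hle
      exact ((hM a).1 ha).prop.1 (by
        rw [le_bot_iff.1 hle]
        exact isMin_bot)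
    · intro x hx
      obtain ⟨a, ha, hax⟩ := hx
      have hxm : ¬ IsMax x := by
        intro h
        exact hax (h.isTop a)
      obtain ⟨m, hxm', hm⟩ := (Set.toFinite {x : L | ¬ IsMax x}).exists_le_maximal hxm
      rcases hc m hm with h | h
      · exact absurd h (by have := h2 m hm.prop; omega)
      · refine le_trans (Nat.mul_le_mul_left 2 ?_) h
        apply Finset.sum_le_sum_of_subset
        intro j hj
        rw [mem_filter] at hj ⊢
        exact ⟨hj.1, hj.2.trans hxm'⟩

/-- Let `L` be a finite lattice with at least two elements.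
(1) Let `z` be an element and `A` a finite set of elements not below `z` such that every
join-irreducible element is below `z` or below a member of `A`; if for some weights on `A`, not all
zero, every `x` not above all of `A` is above at most half of the weight, then some member of `A`
lies below at most half of the elements of `L`.
(2) Let `M` be the set of maximal join-irreducible elements; if for some weights on `M`, not all
zero, every coatom fails to be above at most two members of `M` or is above at most half of the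
weight, then some member of `M` lies below at most half of the elements of `L`.
(3) This holds if `M` has at most six members. -/
theorem three_forms (L : Type*) [Lattice L] [Finite L] (hL : 2 ≤ Nat.card L) :
    (∀ (z : L) (A : Finset L) (w : L → ℕ), (∀ a ∈ A, ¬ a ≤ z) →
      (∀ c : L, SupIrred c → c ≤ z ∨ ∃ a ∈ A, c ≤ a) → 0 < ∑ a ∈ A, w a →
      (∀ x : L, (∃ a ∈ A, ¬ a ≤ x) → 2 * ∑ a ∈ A with a ≤ x, w a ≤ ∑ a ∈ A, w a) →
      ∃ a ∈ A, 2 * Nat.card {x : L // a ≤ x} ≤ Nat.card L) ∧
    (∀ (M : Finset L) (w : L → ℕ), (∀ j, j ∈ M ↔ Maximal SupIrred j) → 0 < ∑ j ∈ M, w j →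
      (∀ m : L, Maximal (fun x => ¬ IsMax x) m →
        #{j ∈ M | ¬ j ≤ m} ≤ 2 ∨ 2 * ∑ j ∈ M with j ≤ m, w j ≤ ∑ j ∈ M, w j) →
      ∃ j ∈ M, 2 * Nat.card {x : L // j ≤ x} ≤ Nat.card L) ∧
    (Nat.card {j : L // Maximal SupIrred j} ≤ 6 →
      ∃ a : L, Maximal SupIrred a ∧ 2 * Nat.card {x : L // a ≤ x} ≤ Nat.card L) := by
  have : Fintype L := Fintype.ofFinite L
  have hcard : ∀ a : L, Nat.card {x : L // a ≤ x} = #{x : L | a ≤ x} := by
    intro a
    rw [Nat.card_eq_fintype_card, Fintype.card_subtype]
  refine ⟨?_, ?_, ?_⟩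
  · intro z A w hz hcov hw hhalf
    obtain ⟨a, ha, h⟩ := criterion z A w hz hcov hw hhalf
    exact ⟨a, ha, by rw [hcard, Nat.card_eq_fintype_card]; exact h⟩
  · intro M w hM hw hc
    obtain ⟨a, ha, h⟩ := coatoms M w hM hw hc
    exact ⟨a, ha, by rw [hcard, Nat.card_eq_fintype_card]; exact h⟩
  · intro hmax
    set M : Finset L := univ.filter (fun j => Maximal SupIrred j) with hMdef
    have hmem : ∀ j, j ∈ M ↔ Maximal SupIrred j := fun j => by simp [hMdef]
    have h6 : #M ≤ 6 := by
      rw [Nat.card_eq_fintype_card, Fintype.card_subtype] at hmax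
      exact hmax
    have hpos : M.Nonempty := by
      have hnt : Nontrivial L := by
        rw [Nat.card_eq_fintype_card] at hL
        exact Fintype.one_lt_card_iff_nontrivial.1 hL
      obtain ⟨a, b, hab⟩ := exists_pair_ne L
      have hnle : ∃ s t : L, ¬ s ≤ t := by
        by_contra hcon
        push Not at hcon
        exact hab (le_antisymm (hcon a b) (hcon b a))
      obtain ⟨s, t, hst⟩ := hnle
      obtain ⟨c, hc, -, -⟩ := exists_min hst
      obtain ⟨m, -, hm⟩ := (Set.toFinite {c : L | SupIrred c}).exists_le_maximal hc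
      exact ⟨m, (hmem m).2 hm⟩
    obtain ⟨a, ha, h⟩ := coatoms M (fun _ => 1) hmem (by simpa using hpos) (fun m _ => by
      by_cases h2 : #{j ∈ M | ¬ j ≤ m} ≤ 2
      · exact Or.inl h2
      · right
        have h3 := Finset.card_filter_add_card_filter_not (s := M) (fun j => j ≤ m)
        simp only [sum_const, smul_eq_mul, mul_one]
        omega)
    exact ⟨a, (hmem a).1 ha, by rw [hcard, Nat.card_eq_fintype_card]; exact h⟩

/-- A finite lattice with at least two elements and at most six maximal join-irreducible elements has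
a maximal join-irreducible element below at most half of the elements. -/
theorem six_maximal (L : Type*) [Lattice L] [Finite L] (hL : 2 ≤ Nat.card L)
    (hmax : Nat.card {j : L // Maximal SupIrred j} ≤ 6) :
    ∃ a : L, Maximal SupIrred a ∧ 2 * Nat.card {x : L // a ≤ x} ≤ Nat.card L :=
  (three_forms L hL).2.2 hmax

end Pool.Agent.H60.Fr.SixMaximal
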